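import Mathlib

set_option autoImplicit false

/-!
Real versus complex minimum rank.  Eleven vectors of `ℂ³` (a frame `e₁, e₂, e₃`, three null
vectors, each taken twice, one in every coordinate plane, and two vectors orthogonal to two of the
null vectors each).  Their Gram matrix for the bilinear form has rank at most 3; no real symmetric
matrix with the same off-diagonal zero pattern has rank at most 3.
-/

namespace Pool.Agent.Q106.MinRank

/-- all `4 × 4` minors of a matrix of rank at most 3 vanish -/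
lemma minor_zero {n : ℕ} (A : Matrix (Fin n) (Fin n) ℝ) (h : A.rank ≤ 3)
    (r c : Fin 4 → Fin n) : (A.submatrix r c).det = 0 := by
  by_contra hdet
  have hu : IsUnit (A.submatrix r c) := by
    rw [Matrix.isUnit_iff_isUnit_det]
    exact isUnit_iff_ne_zero.mpr hdet
  have h4 : (A.submatrix r c).rank = 4 := by
    have := Matrix.rank_of_isUnit (A.submatrix r c) hu
    simpa using this
  have hfac : A.submatrix r c
      = ((1 : Matrix (Fin n) (Fin n) ℝ).submatrix r id) * A *
        ((1 : Matrix (Fin n) (Fin n) ℝ).submatrix id c) := by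
    ext i j
    simp [Matrix.mul_apply, Matrix.one_apply, Matrix.submatrix_apply]
  have h1 : (A.submatrix r c).rank ≤ A.rank := by
    rw [hfac]
    exact (Matrix.rank_mul_le_left _ _).trans (Matrix.rank_mul_le_right _ _)
  omega

lemma det4 (M : Matrix (Fin 4) (Fin 4) ℝ) : M.det =
    M 0 0 * (M 1 1 * (M 2 2 * M 3 3 - M 2 3 * M 3 2) - M 1 2 * (M 2 1 * M 3 3 - M 2 3 * M 3 1)
      + M 1 3 * (M 2 1 * M 3 2 - M 2 2 * M 3 1))
    - M 0 1 * (M 1 0 * (M 2 2 * M 3 3 - M 2 3 * M 3 2) - M 1 2 * (M 2 0 * M 3 3 - M 2 3 * M 3 0)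
      + M 1 3 * (M 2 0 * M 3 2 - M 2 2 * M 3 0))
    + M 0 2 * (M 1 0 * (M 2 1 * M 3 3 - M 2 3 * M 3 1) - M 1 1 * (M 2 0 * M 3 3 - M 2 3 * M 3 0)
      + M 1 3 * (M 2 0 * M 3 1 - M 2 1 * M 3 0))
    - M 0 3 * (M 1 0 * (M 2 1 * M 3 2 - M 2 2 * M 3 1) - M 1 1 * (M 2 0 * M 3 2 - M 2 2 * M 3 0)
      + M 1 2 * (M 2 0 * M 3 1 - M 2 1 * M 3 0)) := by
  rw [Matrix.det_succ_row_zero]
  simp [Fin.sum_univ_succ, Matrix.det_fin_three, Fin.succAbove, Matrix.submatrix_apply]
  ring

end Pool.Agent.Q106.MinRank
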