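import Pool.Agent.Q106.MinRank.Core

set_option autoImplicit false

namespace Pool.Agent.Q106.MinRank

/-- two parallel null vectors force opposite signs in their plane -/
lemma sign_lemma (Q R y3 z3 y4 z4 y9 z9 : ℝ) (hQ : Q ≠ 0) (hz3 : z3 ≠ 0) (hz4 : z4 ≠ 0)
    (hy9 : y9 ≠ 0) (hz9 : z9 ≠ 0)
    (E1 : R * y3 * y4 + Q * z3 * z4 = 0) (E2 : R * y3 * y9 + Q * z3 * z9 = 0)
    (E3 : R * y4 * y9 + Q * z4 * z9 = 0) : Q * R < 0 := by
  have h1 : (Q * z3 * z4) * (R * y9 ^ 2 + Q * z9 ^ 2) = 0 := by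
    have e2 : R * y3 * y9 = - (Q * z3 * z9) := by linarith
    have e3 : R * y4 * y9 = - (Q * z4 * z9) := by linarith
    have e1 : R * y3 * y4 = - (Q * z3 * z4) := by linarith
    have e : (R * y3 * y9) * (R * y4 * y9) = (Q * z3 * z9) * (Q * z4 * z9) := by
      rw [e2, e3]; ring
    have e' : (R * y3 * y4) * (R * y9 ^ 2) = (Q * z3 * z4) * (Q * z9 ^ 2) := by
      nlinarith [e]
    rw [e1] at e'
    linarith
  have h2 : R * y9 ^ 2 + Q * z9 ^ 2 = 0 := by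
    rcases mul_eq_zero.mp h1 with h | h
    · exact absurd h (mul_ne_zero (mul_ne_zero hQ hz3) hz4)
    · exact h
  have hy : 0 < y9 ^ 2 := by positivity
  have hq : 0 < Q ^ 2 * z9 ^ 2 := by positivity
  by_contra hcon
  push Not at hcon
  have : Q * R * y9 ^ 2 + Q ^ 2 * z9 ^ 2 = 0 := by
    have := congrArg (fun t => Q * t) h2
    simp only [mul_zero] at this
    linarith
  have h3 : 0 ≤ Q * R * y9 ^ 2 := mul_nonneg hcon hy.le
  linarith

variable {A : Matrix (Fin 11) (Fin 11) ℝ}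

lemma parseval (hs : ∀ i j, A i j = A j i) (h : A.rank ≤ 3)
    (z01 : A 0 1 = 0) (z02 : A 0 2 = 0) (z12 : A 1 2 = 0) (l m : Fin 11) :
    A 0 0 * A 1 1 * A 2 2 * A l m = A 1 1 * A 2 2 * (A l 0 * A 0 m)
      + A 0 0 * A 2 2 * (A l 1 * A 1 m) + A 0 0 * A 1 1 * (A l 2 * A 2 m) := by
  have h0 := minor_zero A h ![0, 1, 2, l] ![0, 1, 2, m]
  rw [det4] at h0
  simp only [Matrix.submatrix_apply, Matrix.cons_val] at h0
  have z10 : A 1 0 = 0 := by rw [hs]; exact z01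
  have z20 : A 2 0 = 0 := by rw [hs]; exact z02
  have z21 : A 2 1 = 0 := by rw [hs]; exact z12
  rw [z01, z02, z12, z10, z20, z21] at h0
  linarith

theorem no_real (hs : ∀ i j, A i j = A j i) (h : A.rank ≤ 3)
    (z01 : A 0 1 = 0) (z02 : A 0 2 = 0) (z12 : A 1 2 = 0)
    (z03 : A 0 3 = 0) (z04 : A 0 4 = 0) (z34 : A 3 4 = 0) (z39 : A 3 9 = 0) (z49 : A 4 9 = 0)
    (z15 : A 1 5 = 0) (z16 : A 1 6 = 0) (z56 : A 5 6 = 0) (z59 : A 5 9 = 0) (z69 : A 6 9 = 0)
    (z27 : A 2 7 = 0) (z28 : A 2 8 = 0) (z78 : A 7 8 = 0) (z7 : A 7 10 = 0) (z8 : A 8 10 = 0)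
    (n05 : A 0 5 ≠ 0) (n06 : A 0 6 ≠ 0) (n07 : A 0 7 ≠ 0) (n08 : A 0 8 ≠ 0) (n09 : A 0 9 ≠ 0)
    (n010 : A 0 10 ≠ 0)
    (n13 : A 1 3 ≠ 0) (n14 : A 1 4 ≠ 0) (n17 : A 1 7 ≠ 0) (n18 : A 1 8 ≠ 0) (n19 : A 1 9 ≠ 0)
    (n110 : A 1 10 ≠ 0)
    (n23 : A 2 3 ≠ 0) (n24 : A 2 4 ≠ 0) (n25 : A 2 5 ≠ 0) (n26 : A 2 6 ≠ 0) (n29 : A 2 9 ≠ 0) :
    False := by
  have z10 : A 1 0 = 0 := by rw [hs]; exact z01
  have z20 : A 2 0 = 0 := by rw [hs]; exact z02
  have z21 : A 2 1 = 0 := by rw [hs]; exact z12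
  have z30 : A 3 0 = 0 := by rw [hs]; exact z03
  have z40 : A 4 0 = 0 := by rw [hs]; exact z04
  have z51 : A 5 1 = 0 := by rw [hs]; exact z15
  have z61 : A 6 1 = 0 := by rw [hs]; exact z16
  have z72 : A 7 2 = 0 := by rw [hs]; exact z27
  have z82 : A 8 2 = 0 := by rw [hs]; exact z28
  have n50 : A 5 0 ≠ 0 := by rw [hs]; exact n05
  have n70 : A 7 0 ≠ 0 := by rw [hs]; exact n07
  have n31 : A 3 1 ≠ 0 := by rw [hs]; exact n13
  have n32 : A 3 2 ≠ 0 := by rw [hs]; exact n23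
  have n71 : A 7 1 ≠ 0 := by rw [hs]; exact n17
  -- the three diagonal entries do not vanish
  have d0 : A 0 0 ≠ 0 := by
    intro d0
    by_cases d1 : A 1 1 = 0
    · have h0 := minor_zero A h ![0, 1, 5, 7] ![0, 1, 5, 7]
      rw [det4] at h0
      simp only [Matrix.submatrix_apply, Matrix.cons_val] at h0
      rw [d0, d1, z01, z10, z15, z51, hs 5 0, hs 7 0, hs 7 1] at h0
      have : (A 0 5 * A 1 7) ^ 2 = 0 := by linarith
      have := pow_eq_zero_iff (two_ne_zero) |>.mp this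
      exact (mul_ne_zero n05 n17) this
    · have h0 := minor_zero A h ![0, 1, 2, 5] ![0, 1, 5, 7]
      rw [det4] at h0
      simp only [Matrix.submatrix_apply, Matrix.cons_val] at h0
      rw [d0, z01, z10, z20, z21, z15, z27, z51] at h0
      have : A 5 0 * A 1 1 * A 0 7 * A 2 5 = 0 := by linarith
      exact (mul_ne_zero (mul_ne_zero (mul_ne_zero n50 d1) n07) n25) this
  have d1 : A 1 1 ≠ 0 := by
    intro d1
    have h0 := minor_zero A h ![0, 1, 2, 3] ![0, 1, 5, 7]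
    rw [det4] at h0
    simp only [Matrix.submatrix_apply, Matrix.cons_val] at h0
    rw [d1, z01, z10, z20, z21, z15, z27, z30] at h0
    have : A 0 0 * A 3 1 * A 1 7 * A 2 5 = 0 := by linarith
    exact (mul_ne_zero (mul_ne_zero (mul_ne_zero d0 n31) n17) n25) this
  have d2 : A 2 2 ≠ 0 := by
    intro d2
    have h0 := minor_zero A h ![0, 1, 2, 3] ![0, 1, 2, 5]
    rw [det4] at h0
    simp only [Matrix.submatrix_apply, Matrix.cons_val] at h0
    rw [d2, z01, z02, z10, z12, z20, z21, z15, z30] at h0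
    have : A 0 0 * A 1 1 * A 3 2 * A 2 5 = 0 := by linarith
    exact (mul_ne_zero (mul_ne_zero (mul_ne_zero d0 d1) n32) n25) this
  have P := parseval hs h z01 z02 z12
  -- first coordinate plane
  have s12 : A 1 1 * A 2 2 < 0 := by
    apply sign_lemma (A 1 1) (A 2 2) (A 1 3) (A 2 3) (A 1 4) (A 2 4) (A 1 9) (A 2 9) d1 n23 n24
      n19 n29
    · have := P 3 4
      rw [z34, z30, hs 3 1, hs 3 2] at this
      apply mul_left_cancel₀ d0; linarith
    · have := P 3 9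
      rw [z39, z30, hs 3 1, hs 3 2] at this
      apply mul_left_cancel₀ d0; linarith
    · have := P 4 9
      rw [z49, z40, hs 4 1, hs 4 2] at this
      apply mul_left_cancel₀ d0; linarith
  have s02 : A 0 0 * A 2 2 < 0 := by
    apply sign_lemma (A 0 0) (A 2 2) (A 0 5) (A 2 5) (A 0 6) (A 2 6) (A 0 9) (A 2 9) d0 n25 n26
      n09 n29
    · have := P 5 6
      rw [z56, z51, hs 5 0, hs 5 2] at this
      apply mul_left_cancel₀ d1; linarith
    · have := P 5 9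
      rw [z59, z51, hs 5 0, hs 5 2] at this
      apply mul_left_cancel₀ d1; linarith
    · have := P 6 9
      rw [z69, z61, hs 6 0, hs 6 2] at this
      apply mul_left_cancel₀ d1; linarith
  have s01 : A 0 0 * A 1 1 < 0 := by
    apply sign_lemma (A 0 0) (A 1 1) (A 0 7) (A 1 7) (A 0 8) (A 1 8) (A 0 10) (A 1 10) d0 n17 n18
      n010 n110
    · have := P 7 8
      rw [z78, z72, hs 7 0, hs 7 1] at this
      apply mul_left_cancel₀ d2; linarith
    · have := P 7 10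
      rw [z7, z72, hs 7 0, hs 7 1] at this
      apply mul_left_cancel₀ d2; linarith
    · have := P 8 10
      rw [z8, z82, hs 8 0, hs 8 1] at this
      apply mul_left_cancel₀ d2; linarith
  have h1 : 0 < (A 0 0 * A 1 1) * (A 1 1 * A 2 2) := mul_pos_of_neg_of_neg s01 s12
  have h2 : (A 0 0 * A 2 2) * (A 1 1) ^ 2 < 0 :=
    mul_neg_of_neg_of_pos s02 (by positivity)
  nlinarith

end Pool.Agent.Q106.MinRank
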